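import Pool.Agent.Run7.h970.ND.Stm2

/-! Piece BND2 of the project of helper970 (nine dragon tree, second stage): counting. -/

set_option autoImplicit false

namespace Pool.Agent.Run7.h586.ND

open SimpleGraph Pool.Agent.Run7.h970.ND

theorem sumA (f : ℕ → ℕ) (hf : Antitone f) (y : ℕ → ℕ) (j : ℕ) :
    ∀ (n : ℕ) (A : Finset ℕ), A.card = n →
      (∀ A' : Finset ℕ, A' ⊆ A → A'.Nonempty → ∃ a ∈ A', j + A'.card ≤ y a + 1) →
      ∑ a ∈ A, f (y a) ≤ ∑ m ∈ Finset.range n, f (j + m) := by
  intro n
  induction n with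
  | zero =>
    intro A hA _
    rw [Finset.card_eq_zero.1 hA]
    simp
  | succ n ih =>
    intro A hA h
    have hne : A.Nonempty := by
      rw [← Finset.card_pos]
      omega
    obtain ⟨a, ha, hle⟩ := h A (Finset.Subset.refl _) hne
    have h1 := ih (A.erase a) (by rw [Finset.card_erase_of_mem ha]; omega)
      (fun A' hA' hne' => h A' (hA'.trans (Finset.erase_subset _ _)) hne')
    rw [← Finset.add_sum_erase A _ ha, Finset.sum_range_succ]
    have h2 : f (y a) ≤ f (j + n) := hf (by omega)
    omega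

theorem sumB (F : ℕ → ℕ) (d n : ℕ) (hF : ∀ m, d ≤ m → F m = 0) :
    ∑ m ∈ Finset.range n, F m ≤ ∑ m ∈ Finset.range d, F m := by
  have h1 : ∑ m ∈ Finset.range d, F m = ∑ m ∈ Finset.range (d + n), F m := by
    refine Finset.sum_subset (fun m hm => ?_) (fun m hm hm' => ?_)
    · simp only [Finset.mem_range] at hm ⊢
      omega
    · simp only [Finset.mem_range, not_lt] at hm'
      exact hF m hm'
  rw [h1]
  refine Finset.sum_le_sum_of_subset (fun m hm => ?_)
  simp only [Finset.mem_range] at hm ⊢
  omega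

theorem stepC (K d D : ℕ) (hK : 1 ≤ K)
    (h4 : d + K * (∑ m ∈ Finset.range d, (d - (K + 1) * m)) ≤ (K + 1) * D) (j : ℕ) :
    d + K * (∑ m ∈ Finset.range d, (d - (K + 1) * (j + m))) + (K + 1) * j ≤ (K + 1) * D ∨
      d ≤ (K + 1) * j := by
  induction j with
  | zero => left; simpa using h4
  | succ j ih =>
    by_cases hj : d ≤ (K + 1) * (j + 1)
    · exact Or.inr hj
    · left
      have hj2 : (K + 1) * (j + 1) < d := not_le.1 hj
      have ex : (K + 1) * (j + 1) = (K + 1) * j + (K + 1) := by ring
      have ih' := ih.resolve_right (by omega)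
      have e : ∑ m ∈ Finset.range d, (d - (K + 1) * (j + 1 + m)) + (d - (K + 1) * j) =
          ∑ m ∈ Finset.range d, (d - (K + 1) * (j + m)) := by
        have h5 := Finset.sum_range_succ (fun m => d - (K + 1) * (j + m)) d
        have h6 := Finset.sum_range_succ' (fun m => d - (K + 1) * (j + m)) d
        have h7 : d - (K + 1) * (j + d) = 0 := by
          apply Nat.sub_eq_zero_of_le
          nlinarith
        have h8 : ∑ m ∈ Finset.range d, (d - (K + 1) * (j + 1 + m)) =
            ∑ m ∈ Finset.range d, (d - (K + 1) * (j + (m + 1))) := by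
          refine Finset.sum_congr rfl (fun m _ => ?_)
          rw [show j + 1 + m = j + (m + 1) by ring]
        simp only [Nat.add_zero, h7] at h5 h6
        rw [h8, ← h6, h5]
      have e2 : K + 2 ≤ d - (K + 1) * j := by omega
      generalize (d - (K + 1) * j) = t at e e2
      generalize ∑ m ∈ Finset.range d, (d - (K + 1) * (j + 1 + m)) = S' at e ⊢
      rw [← e] at ih'
      have h9 : K * (K + 2) ≤ K * t := Nat.mul_le_mul_left _ e2
      nlinarith

theorem num {ι : Type} [Fintype ι] [DecidableEq ι] [Nonempty ι] (x c : ℕ → ℕ) (β : ℕ → ι)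
    (L d D : ℕ) (hx : x 0 = D + 1) (hc : ∀ a, a < L → c a ≤ L)
    (h3 : ∀ (A : Finset ℕ) (b : ι) (i : ℕ), i ≤ L → A.Nonempty →
      (∀ a ∈ A, a < L ∧ β a = b ∧ c a = i ∧ (Fintype.card ι + 1) * x (a + 1) < d) →
      ∃ a ∈ A, D + A.card ≤ x (a + 1) + 1 + min (x i) D)
    (h4 : d + Fintype.card ι * (∑ m ∈ Finset.range d, (d - (Fintype.card ι + 1) * m)) ≤
      (Fintype.card ι + 1) * D) :
    d * L < (Fintype.card ι + 1) * ∑ i ∈ Finset.range (L + 1), x i := by
  have hK : 1 ≤ Fintype.card ι := Fintype.card_pos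
  have hcard : ∀ n : ℕ, ∑ _b : ι, n = Fintype.card ι * n := by
    intro n
    simp
  generalize hKd : Fintype.card ι = K at *
  let f : ℕ → ℕ := fun m => d - (K + 1) * m
  have hf : Antitone f := by
    intro m n hmn
    show d - (K + 1) * n ≤ d - (K + 1) * m
    exact Nat.sub_le_sub_left (Nat.mul_le_mul_left _ hmn) _
  let h : ℕ → ℕ := fun i => ∑ m ∈ Finset.range d, f ((D - min (x i) D) + m)
  have hb : ∀ i, i ≤ L → ∀ b : ι,
      ∑ a ∈ (Finset.range L).filter (fun a => c a = i ∧ β a = b), f (x (a + 1)) ≤ h i := by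
    intro i hi b
    have e1 : ∑ a ∈ (Finset.range L).filter (fun a => c a = i ∧ β a = b), f (x (a + 1)) =
       ∑ a ∈ ((Finset.range L).filter (fun a => c a = i ∧ β a = b)).filter
          (fun a => (K + 1) * x (a + 1) < d), f (x (a + 1)) := by
      refine (Finset.sum_filter_of_ne (fun a _ hne => ?_)).symm
      by_contra hcon
      exact hne (Nat.sub_eq_zero_of_le (not_lt.1 hcon))
    rw [e1]
    refine (sumA f hf (fun a => x (a + 1)) (D - min (x i) D) _ _ rfl ?_).trans
      (sumB (fun m => f ((D - min (x i) D) + m)) d _ ?_)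
    · intro A' hA' hne
      obtain ⟨a, ha, hle⟩ := h3 A' b i hi hne (by
        intro a ha
        have := hA' ha
        simp only [Finset.mem_filter, Finset.mem_range] at this
        exact ⟨this.1.1, this.1.2.2, this.1.2.1, this.2⟩)
      refine ⟨a, ha, ?_⟩
      have := min_le_right (x i) D
      show D - min (x i) D + A'.card ≤ x (a + 1) + 1
      omega
    · intro m hm
      show d - (K + 1) * _ = 0
      apply Nat.sub_eq_zero_of_le
      nlinarith
  have hs : ∑ a ∈ Finset.range L, f (x (a + 1)) ≤ K * ∑ i ∈ Finset.range (L + 1), h i := by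
    have e2 : ∑ a ∈ Finset.range L, f (x (a + 1)) =
        ∑ p ∈ Finset.range (L + 1) ×ˢ (Finset.univ : Finset ι),
          ∑ a ∈ (Finset.range L).filter (fun a => (c a, β a) = p), f (x (a + 1)) := by
      rw [Finset.sum_fiberwise_of_maps_to]
      intro a ha
      have := hc a (Finset.mem_range.1 ha)
      simp only [Finset.mem_product, Finset.mem_range, Finset.mem_univ, and_true]
      omega
    rw [e2, Finset.sum_product]
    calc _ ≤ ∑ i ∈ Finset.range (L + 1), ∑ _b : ι, h i := by
          refine Finset.sum_le_sum (fun i hi => Finset.sum_le_sum (fun b _ => ?_))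
          refine le_trans (le_of_eq ?_) (hb i (by have := Finset.mem_range.1 hi; omega) b)
          refine Finset.sum_congr ?_ (fun _ _ => rfl)
          ext a
          simp only [Finset.mem_filter, Prod.mk.injEq]
      _ = _ := by
          rw [Finset.mul_sum]
          exact Finset.sum_congr rfl (fun i _ => hcard _)
  have hcc : ∀ i, K * h i ≤ (K + 1) * x i - d := by
    intro i
    show K * ∑ m ∈ Finset.range d, (d - (K + 1) * ((D - min (x i) D) + m)) ≤ _
    rcases stepC K d D hK h4 (D - min (x i) D) with hh | hh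
    · have h5 : (K + 1) * D ≤ (K + 1) * (D - min (x i) D) + (K + 1) * x i := by
        rw [← Nat.mul_add]
        apply Nat.mul_le_mul_left
        have := min_le_left (x i) D
        omega
      generalize ∑ m ∈ Finset.range d, (d - (K + 1) * ((D - min (x i) D) + m)) = S at hh ⊢
      generalize (K + 1) * (D - min (x i) D) = P at hh h5
      generalize (K + 1) * x i = Q at h5 ⊢
      generalize (K + 1) * D = W at hh h5
      generalize K * S = Z at hh ⊢
      omega
    · have h6 : ∑ m ∈ Finset.range d, (d - (K + 1) * ((D - min (x i) D) + m)) = 0 :=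
        Finset.sum_eq_zero (fun m _ => Nat.sub_eq_zero_of_le
          (hh.trans (Nat.mul_le_mul_left _ (Nat.le_add_right _ _))))
      rw [h6]
      simp
  have h0 : K * h 0 ≤ (K + 1) * D := by
    have e0 : h 0 = ∑ m ∈ Finset.range d, (d - (K + 1) * m) := by
      show ∑ m ∈ Finset.range d, (d - (K + 1) * ((D - min (x 0) D) + m)) = _
      rw [hx, min_eq_right (by omega), Nat.sub_self]
      simp
    rw [e0]
    omega
  have idy : ∀ y, (K + 1) * y + f y = ((K + 1) * y - d) + d := by
    intro y
    show (K + 1) * y + (d - (K + 1) * y) = _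
    omega
  have s1 : ∑ a ∈ Finset.range L, ((K + 1) * x (a + 1) + f (x (a + 1))) =
      ∑ a ∈ Finset.range L, (((K + 1) * x (a + 1) - d) + d) :=
    Finset.sum_congr rfl (fun a _ => idy _)
  rw [Finset.sum_add_distrib, Finset.sum_add_distrib, ← Finset.mul_sum, Finset.sum_const,
    Finset.card_range, smul_eq_mul] at s1
  have s2 : K * ∑ i ∈ Finset.range (L + 1), h i ≤
      K * h 0 + ∑ a ∈ Finset.range L, ((K + 1) * x (a + 1) - d) := by
    rw [Finset.sum_range_succ', Nat.mul_add, add_comm]
    refine Nat.add_le_add_left ?_ _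
    rw [Finset.mul_sum]
    exact Finset.sum_le_sum (fun a _ => hcc (a + 1))
  rw [Finset.sum_range_succ', hx, Nat.mul_add]
  have e3 : (K + 1) * (D + 1) = (K + 1) * D + (K + 1) := by ring
  have e4 : L * d = d * L := mul_comm _ _
  rw [e3]
  rw [e4] at s1
  generalize (K + 1) * ∑ i ∈ Finset.range L, x (i + 1) = P1 at s1 ⊢
  generalize ∑ a ∈ Finset.range L, f (x (a + 1)) = P2 at s1 hs
  generalize ∑ a ∈ Finset.range L, ((K + 1) * x (a + 1) - d) = P3 at s1 s2
  generalize K * ∑ i ∈ Finset.range (L + 1), h i = P4 at s2 hs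
  generalize (K + 1) * D = P5 at h0 ⊢
  generalize K * h 0 = P6 at h0 s2
  generalize d * L = P7 at s1 ⊢
  omega

open scoped Classical in
theorem comp_sum {V : Type} [Fintype V] (R : SimpleGraph V) (r : V) (w : ℕ → V) (L : ℕ)
    (hw : ∀ a, a < L → w a ∉ St R r w a) :
    ∑ i ∈ Finset.range (L + 1), cs R (rt r w i) ≤ (St R r w L).ncard := by
  let F : ℕ → Finset V := fun i => Finset.univ.filter (fun x => R.Reachable (rt r w i) x)
  have hF : ∀ i, (F i).card = cs R (rt r w i) := by
    intro i
    unfold cs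
    rw [Set.ncard_eq_toFinset_card']
    congr 1
    ext x
    simp [F]
  have key : ∀ i j, i < j → j ≤ L → Disjoint (F i) (F j) := by
    intro i j hij hj
    obtain ⟨a, rfl⟩ : ∃ a, j = a + 1 := ⟨j - 1, by omega⟩
    rw [Finset.disjoint_left]
    intro v hv1 hv2
    simp only [F, Finset.mem_filter, Finset.mem_univ, true_and] at hv1 hv2
    refine hw a (by omega) ⟨i, by omega, ?_⟩
    exact hv1.trans hv2.symm
  have hdis : ∀ i ∈ Finset.range (L + 1), ∀ j ∈ Finset.range (L + 1), i ≠ j →
      Disjoint (F i) (F j) := by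
    intro i hi j hj hij
    have hi' := Finset.mem_range.1 hi
    have hj' := Finset.mem_range.1 hj
    rcases lt_or_gt_of_ne hij with h | h
    · exact key i j h (by omega)
    · exact (key j i h (by omega)).symm
  have h1 : ((Finset.range (L + 1)).biUnion F).card = ∑ i ∈ Finset.range (L + 1), (F i).card :=
    Finset.card_biUnion hdis
  have h2 : ((Finset.range (L + 1)).biUnion F).card ≤ (St R r w L).ncard := by
    rw [Set.ncard_eq_toFinset_card']
    refine Finset.card_le_card ?_
    intro x hx
    rw [Finset.mem_biUnion] at hx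
    obtain ⟨i, hi, hx⟩ := hx
    simp only [F, Finset.mem_filter, Finset.mem_univ, true_and] at hx
    rw [Set.mem_toFinset]
    exact ⟨i, by have := Finset.mem_range.1 hi; omega, hx⟩
  rw [← Finset.sum_congr rfl (fun i _ => hF i), ← h1]
  exact h2

open scoped Classical in
theorem t_BND2 : S_BND2 := by
  intro V _ ι _ _ R r u w β L d D h1 h2 h3 h4
  have hc : ∀ a, ∃ c, a < L → c ≤ a ∧ R.Reachable (rt r w c) (u a) := by
    intro a
    by_cases ha : a < L
    · obtain ⟨c, hc, hr⟩ := (h1 a ha).1
      exact ⟨c, fun _ => ⟨hc, hr⟩⟩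
    · exact ⟨0, fun h => absurd h ha⟩
  choose c hc using hc
  have hpos : ∀ v, 1 ≤ cs R v := by
    intro v
    unfold cs
    have : ({v} : Set V).ncard ≤ {x | R.Reachable v x}.ncard := by
      refine Set.ncard_le_ncard ?_ (Set.toFinite _)
      rintro x rfl
      exact Reachable.refl _
    rwa [Set.ncard_singleton] at this
  have hnum := num (fun i => cs R (rt r w i) - 1) c β L d D
    (by show cs R r - 1 = D + 1; omega) (fun a ha => ((hc a ha).1).trans ha.le)
    (by
      intro A b i hi hne hA
      obtain ⟨a, ha, hle⟩ := h3 A b i hi hne (fun a ha => by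
        obtain ⟨g1, g2, g3, g4⟩ := hA a ha
        exact ⟨g1, g2, g3 ▸ (hc a g1).2, g4⟩)
      refine ⟨a, ha, ?_⟩
      have := hpos (w a)
      show D + A.card ≤ cs R (w a) - 1 + 1 + min (cs R (rt r w i) - 1) D
      omega) h4
  have hsum := comp_sum R r w L (fun a ha => (h1 a ha).2)
  have e : ∑ i ∈ Finset.range (L + 1), cs R (rt r w i) =
      ∑ i ∈ Finset.range (L + 1), (cs R (rt r w i) - 1) + (L + 1) := by
    have : ∑ i ∈ Finset.range (L + 1), cs R (rt r w i) =
      ∑ i ∈ Finset.range (L + 1), ((cs R (rt r w i) - 1) + 1) :=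
      Finset.sum_congr rfl (fun i _ => by have := hpos (rt r w i); omega)
    rw [this, Finset.sum_add_distrib]
    simp
  rw [e] at hsum
  have hnum' : d * L < (Fintype.card ι + 1) *
    ∑ i ∈ Finset.range (L + 1), (cs R (rt r w i) - 1) := hnum
  generalize ∑ i ∈ Finset.range (L + 1), (cs R (rt r w i) - 1) = S at hnum' hsum
  have h5 : S + L ≤ (St R r w L).ncard - 1 := by omega
  calc (Fintype.card ι + d + 1) * L = (Fintype.card ι + 1) * L + d * L := by ring
    _ < (Fintype.card ι + 1) * L + (Fintype.card ι + 1) * S := Nat.add_lt_add_left hnum' _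
    _ = (Fintype.card ι + 1) * (S + L) := by ring
    _ ≤ _ := Nat.mul_le_mul_left _ h5

end Pool.Agent.Run7.h586.ND
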